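import Pool.Agent.H27.ZF.TA

/-!
Board zf, row LBD: local bounds from the sums of squares.
-/

set_option autoImplicit false

namespace Pool.Agent.H78.ZF

open Pool.Agent.H27.ZF

/-- one coefficient from the sum of squares over its block -/
theorem sq_one (lam : ℕ → ℂ) (Q A : ℝ) (hS : Sq lam Q A) (hA : 0 ≤ A) (n : ℕ) (hn : 2 ≤ n)
    (hnQ : (n : ℝ) ≤ Q / 2) : ‖lam n‖ ^ 2 ≤ A * (2 * n) := by
  set r := Nat.clog 2 n with hr
  have hr1 : 1 ≤ r := by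
    rw [hr]
    exact Nat.clog_pos (by norm_num) hn
  have hle : n ≤ 2 ^ r := Nat.le_pow_clog (by norm_num) n
  have hlt : 2 ^ (r - 1) < n := by
    have := Nat.pow_pred_clog_lt_self (b := 2) (by norm_num) (x := n) (by omega)
    simpa [Nat.pred_eq_sub_one] using this
  have h2r : 2 ^ r = 2 ^ (r - 1) * 2 := by
    rw [← pow_succ]
    congr 1
    omega
  have hmem : n ∈ Bk r := by
    rw [Bk, Finset.mem_Ioc]
    refine ⟨?_, hle⟩
    rw [h2r, Nat.mul_div_cancel _ (by norm_num)]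
    exact hlt
  have hrn : (2 : ℝ) ^ r ≤ 2 * n := by
    have h3 : 2 ^ r ≤ 2 * n := by omega
    exact_mod_cast h3
  have h1 := hS r (by linarith)
  have h2 : ‖lam n‖ ^ 2 ≤ ∑ n ∈ Bk r, ‖lam n‖ ^ 2 :=
    Finset.single_le_sum (f := fun n => ‖lam n‖ ^ 2) (fun i _ => by positivity) hmem
  calc ‖lam n‖ ^ 2 ≤ A * 2 ^ r := h2.trans h1
    _ ≤ A * (2 * n) := mul_le_mul_of_nonneg_left hrn hA

theorem pf_LBD (hLOC : T_LOC) : T_LBD := by
  intro m hm
  refine ⟨16 ^ m, one_le_pow₀ (by norm_num), ?_⟩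
  intro lam q Q c hE hQ hc hc1 hS p hp hpQ k hk
  have hp2 : (2 : ℝ) ≤ p := by exact_mod_cast hp.two_le
  have hp0 : (0 : ℝ) < p := by linarith
  have hp1 : (1 : ℝ) ≤ p := by linarith
  have hQ0 : 0 < Q := by linarith
  have hbig : (p : ℝ) ^ (2 * m) * 2 ≤ Q := by
    calc (p : ℝ) ^ (2 * m) * 2 ≤ (p : ℝ) ^ (2 * m) * p ^ 1 := by
          rw [pow_one]
          exact mul_le_mul_of_nonneg_left hp2 (by positivity)
      _ = (p : ℝ) ^ (2 * m + 1) := by rw [pow_add]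
      _ ≤ (p : ℝ) ^ (4 * m) := pow_le_pow_right₀ hp1 (by omega)
      _ ≤ Q := hpQ
  have hone : 1 ≤ (p : ℝ) ^ (2 * m) := one_le_pow₀ hp1
  obtain ⟨J, hJ1, hJ2⟩ : ∃ J : ℕ, (p : ℝ) ^ J ≤ Q / 2 ∧ Q / 2 < (p : ℝ) ^ (J + 1) :=
    exists_nat_pow_near (by linarith) (by linarith)
  have hJm : 2 * m ≤ J := by
    by_contra hcon
    have h1 : (p : ℝ) ^ (J + 1) ≤ (p : ℝ) ^ (2 * m) := pow_le_pow_right₀ hp1 (by omega)
    linarith
  set B : ℝ := 2 * (p : ℝ) ^ (1 / 2 + 4 * c) with hB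
  have hppos : 0 < (p : ℝ) ^ (1 / 2 + 4 * c) := Real.rpow_pos_of_pos hp0 _
  have hB0 : 0 < B := by positivity
  have key : ∀ r, r < m → ‖lam (p ^ (J - r))‖ ≤ B ^ (J - r) := by
    intro r hr
    obtain ⟨K, hK⟩ : ∃ K, K = J - r := ⟨_, rfl⟩
    have hK2 : 2 ≤ K := by omega
    have hK4 : J + 1 ≤ 4 * K := by omega
    have hKJ : K ≤ J := by omega
    rw [← hK]
    have hn2 : 2 ≤ p ^ K := by
      calc 2 ≤ p := hp.two_le
        _ = p ^ 1 := (pow_one p).symm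
        _ ≤ p ^ K := Nat.pow_le_pow_right hp.pos (by omega)
    have hnQ : ((p ^ K : ℕ) : ℝ) ≤ Q / 2 := by
      push_cast
      exact (pow_le_pow_right₀ hp1 hKJ).trans hJ1
    have h1 := sq_one lam Q (Q ^ (2 * c)) hS (by positivity) (p ^ K) hn2 hnQ
    push_cast at h1
    have hQc : Q ^ (2 * c) ≤ 4 * (p : ℝ) ^ (8 * c * K) := by
      calc Q ^ (2 * c) ≤ (2 * (p : ℝ) ^ (J + 1)) ^ (2 * c) :=
            Real.rpow_le_rpow hQ0.le (by linarith) (by linarith)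
        _ = (2 : ℝ) ^ (2 * c) * ((p : ℝ) ^ (J + 1)) ^ (2 * c) :=
            Real.mul_rpow (by norm_num) (by positivity)
        _ ≤ 4 * (p : ℝ) ^ (8 * c * K) := by
            refine mul_le_mul ?_ ?_ (by positivity) (by norm_num)
            · calc (2 : ℝ) ^ (2 * c) ≤ (2 : ℝ) ^ (2 : ℝ) :=
                    Real.rpow_le_rpow_of_exponent_le (by norm_num) (by linarith)
                _ = 4 := by norm_num
            · rw [← Real.rpow_natCast (p : ℝ) (J + 1), ← Real.rpow_mul hp0.le]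
              refine Real.rpow_le_rpow_of_exponent_le hp1 ?_
              have h4 : ((J + 1 : ℕ) : ℝ) ≤ 4 * K := by exact_mod_cast hK4
              nlinarith
    have hB2 : B ^ (2 * K) = 4 ^ K * ((p : ℝ) ^ K * (p : ℝ) ^ (8 * c * K)) := by
      rw [hB, mul_pow]
      have e1 : (2 : ℝ) ^ (2 * K) = 4 ^ K := by
        rw [pow_mul]
        norm_num
      have e2 : ((p : ℝ) ^ (1 / 2 + 4 * c)) ^ (2 * K) = (p : ℝ) ^ K * (p : ℝ) ^ (8 * c * K) := by
        rw [← Real.rpow_natCast ((p : ℝ) ^ (1 / 2 + 4 * c)) (2 * K), ← Real.rpow_mul hp0.le,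
          ← Real.rpow_natCast (p : ℝ) K, ← Real.rpow_add hp0]
        congr 1
        push_cast
        ring
      rw [e1, e2]
    have h8 : (8 : ℝ) ≤ 4 ^ K := by
      calc (8 : ℝ) ≤ 4 ^ 2 := by norm_num
        _ ≤ 4 ^ K := pow_le_pow_right₀ (by norm_num) hK2
    have h5 : ‖lam (p ^ K)‖ ^ 2 ≤ (B ^ K) ^ 2 := by
      rw [← pow_mul, mul_comm K 2, hB2]
      have hpk : 0 ≤ (p : ℝ) ^ K := by positivity
      have hpc : 0 ≤ (p : ℝ) ^ (8 * c * K) := by positivity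
      calc ‖lam (p ^ K)‖ ^ 2 ≤ Q ^ (2 * c) * (2 * (p : ℝ) ^ K) := h1
        _ ≤ (4 * (p : ℝ) ^ (8 * c * K)) * (2 * (p : ℝ) ^ K) :=
            mul_le_mul_of_nonneg_right hQc (by positivity)
        _ = 8 * ((p : ℝ) ^ K * (p : ℝ) ^ (8 * c * K)) := by ring
        _ ≤ 4 ^ K * ((p : ℝ) ^ K * (p : ℝ) ^ (8 * c * K)) :=
            mul_le_mul_of_nonneg_right h8 (by positivity)
    exact le_of_sq_le_sq h5 (by positivity)
  have h6 := hLOC m J (fun k => lam (p ^ k)) (q p) B hm (hE.loc p hp) hB0 hJm key k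
  have h7 : ((m + k).choose k : ℝ) ≤ 4 ^ m := by
    have h71 : (m + k).choose k ≤ 2 ^ (m + k) := Nat.choose_le_two_pow _ _
    have h72 : 2 ^ (m + k) ≤ 4 ^ m := by
      calc 2 ^ (m + k) ≤ 2 ^ (2 * m) := Nat.pow_le_pow_right (by norm_num) (by omega)
        _ = 4 ^ m := by
          rw [pow_mul]
          norm_num
    exact_mod_cast h71.trans h72
  have h8 : (2 * B) ^ k ≤ 4 ^ m * (p : ℝ) ^ (k * (1 / 2 + 4 * c)) := by
    have e1 : 2 * B = 4 * (p : ℝ) ^ (1 / 2 + 4 * c) := by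
      rw [hB]
      ring
    rw [e1, mul_pow]
    have e2 : ((p : ℝ) ^ (1 / 2 + 4 * c)) ^ k = (p : ℝ) ^ (k * (1 / 2 + 4 * c)) := by
      rw [← Real.rpow_natCast ((p : ℝ) ^ (1 / 2 + 4 * c)) k, ← Real.rpow_mul hp0.le]
      congr 1
      ring
    rw [e2]
    exact mul_le_mul_of_nonneg_right (pow_le_pow_right₀ (by norm_num) hk) (by positivity)
  calc ‖lam (p ^ k)‖ ≤ ((m + k).choose k : ℝ) * (2 * B) ^ k := h6
    _ ≤ 4 ^ m * (4 ^ m * (p : ℝ) ^ (k * (1 / 2 + 4 * c))) :=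
        mul_le_mul h7 h8 (by positivity) (by positivity)
    _ = 16 ^ m * (p : ℝ) ^ (k * (1 / 2 + 4 * c)) := by
        rw [← mul_assoc, ← mul_pow]
        norm_num

end Pool.Agent.H78.ZF
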