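import Pool.Agent.H27.ZF.TA

/-!
Board zf, row NZR: no zeros, from the bounds for the function and the Dirichlet polynomials.
-/

set_option autoImplicit false

namespace Pool.Agent.H78.ZF

open Pool.Agent.H27.ZF

/-- `Sq` is monotone in the constant -/
theorem sq_mono (lam : ℕ → ℂ) (Q A A' : ℝ) (h : A ≤ A') (hS : Sq lam Q A) : Sq lam Q A' :=
  fun r hr => (hS r hr).trans (mul_le_mul_of_nonneg_right h (by positivity))

/-- `Dp` is monotone in the constant -/
theorem dp_mono (m : ℕ) (lam : ℕ → ℂ) (Q z0 z A A' : ℝ) (s : ℂ) (h : A ≤ A')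
    (hD : Dp m lam Q z0 z A s) : Dp m lam Q z0 z A' s :=
  fun j k r h1 h2 h3 h4 h5 =>
    (hD j k r h1 h2 h3 h4 h5).trans (mul_le_mul_of_nonneg_right h (by positivity))

theorem qv_diff (m : ℕ) (q : ℕ → ℂ) (p : ℕ) (hp : p.Prime) :
    Differentiable ℂ (fun s : ℂ => qv m q ((p : ℂ) ^ (-s))) := by
  have h0 : (p : ℂ) ≠ 0 := by exact_mod_cast hp.ne_zero
  have h1 : Differentiable ℂ (fun s : ℂ => (p : ℂ) ^ (-s)) := by
    intro s
    exact (differentiableAt_id.neg).const_cpow (Or.inl h0)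
  unfold qv
  refine Differentiable.fun_sum fun j _ => ?_
  exact (h1.pow j).const_mul _

theorem summ (m : ℕ) (C0 : ℝ) (lam : ℕ → ℂ) (hl : ∀ n : ℕ, 1 ≤ n → ‖lam n‖ ≤ C0 * (n : ℝ) ^ m)
    (σ : ℝ) (hσ : (m : ℝ) + 4 ≤ σ) :
    Summable (fun n : ℕ => if 1 ≤ n then ‖lam n‖ * (n : ℝ) ^ (-σ) else 0) := by
  have h1 : Summable (fun n : ℕ => C0 * ((n : ℝ) ^ (2 : ℕ))⁻¹) := by
    exact (Real.summable_nat_pow_inv.mpr (by norm_num)).mul_left C0
  refine Summable.of_nonneg_of_le ?_ ?_ h1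
  · intro n
    split_ifs
    · positivity
    · exact le_refl _
  · intro n
    split_ifs with hn
    · have hn0 : (0 : ℝ) < n := by exact_mod_cast hn
      have hn1 : (1 : ℝ) ≤ n := by exact_mod_cast hn
      have hC : 0 ≤ C0 := by
        have := hl 1 le_rfl
        simp only [Nat.cast_one, one_pow, mul_one] at this
        exact (norm_nonneg _).trans this
      calc ‖lam n‖ * (n : ℝ) ^ (-σ) ≤ (C0 * (n : ℝ) ^ m) * (n : ℝ) ^ (-σ) :=
            mul_le_mul_of_nonneg_right (hl n hn) (by positivity)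
        _ = C0 * (n : ℝ) ^ ((m : ℝ) - σ) := by
            rw [mul_assoc, ← Real.rpow_natCast (n : ℝ) m, ← Real.rpow_add hn0]
            congr 2
        _ ≤ C0 * (n : ℝ) ^ (-(2 : ℝ)) := by
            refine mul_le_mul_of_nonneg_left ?_ hC
            exact Real.rpow_le_rpow_of_exponent_le hn1 (by linarith)
        _ = C0 * ((n : ℝ) ^ (2 : ℕ))⁻¹ := by
            rw [Real.rpow_neg hn0.le]
            norm_num
    · rcases Nat.eq_zero_or_pos n with h0 | h0
      · subst h0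
        simp
      · omega

theorem pf_NZR (hHTC : T_HTC) (hPRD : T_PRD) (hEPR : T_EPR) (hTAI : T_TAI) : T_NZR := by
  intro m d C0 hm hd hd2 hC0
  have hm1 : (1 : ℝ) ≤ m := by exact_mod_cast hm
  have hm0 : (0 : ℝ) < m := by linarith
  obtain ⟨w, hw0, hw1, hH⟩ := hHTC 1 ((m : ℝ) + 5 - 1 / 2 - d) ((m : ℝ) + 5 - 1 / 2 - d / 2)
    one_pos (by linarith) (by linarith)
  obtain ⟨c1, hc1, hP⟩ := hPRD m (d / 2) C0 hm (by linarith) (by linarith) hC0
  set η : ℝ := w / (16 * m) with hη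
  have hη0 : 0 < η := by positivity
  obtain ⟨k0, Q1, hk0, hQ1, hP⟩ := hP η hη0
  obtain ⟨C1, hC1, hT⟩ := hTAI m C0 hC0
  set c : ℝ := min c1 η with hc
  have hc0 : 0 < c := lt_min hc1 hη0
  have hcc1 : c ≤ c1 := min_le_left _ _
  have hcη : c ≤ η := min_le_right _ _
  set Q2 : ℝ := (4 * C1 + 1) ^ (8 * m / w) with hQ2
  have hbase : (1 : ℝ) < 4 * C1 + 1 := by linarith
  have hQ2p : 0 < Q2 := Real.rpow_pos_of_pos (by linarith) _
  refine ⟨c, k0, 2 * m + 10, max Q1 Q2, hc0, hk0, by linarith, hQ1.trans (le_max_left _ _), ?_⟩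
  intro lam q L Q t hQ hE hlam hL hsum hS hyp
  have hQQ1 : Q1 ≤ Q := (le_max_left _ _).trans hQ
  have hQQ2 : Q2 ≤ Q := (le_max_right _ _).trans hQ
  have hQ1' : 1 ≤ Q := hQ1.trans hQQ1
  have hQ0 : 0 < Q := by linarith
  -- the size of `z`
  set z : ℝ := Q ^ (1 / (4 * (m : ℝ))) with hz
  have hz1 : 1 ≤ z := Real.one_le_rpow hQ1' (by positivity)
  have hz0 : 0 < z := by linarith
  have hzm : z ^ (4 * m) ≤ Q := by
    rw [hz, ← Real.rpow_natCast, ← Real.rpow_mul hQ0.le]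
    have : 1 / (4 * (m : ℝ)) * ((4 * m : ℕ) : ℝ) = 1 := by
      push_cast
      field_simp
    rw [this, Real.rpow_one]
  set Z : ℕ := ⌊z⌋₊ with hZ
  have hZ1 : 1 ≤ Z := Nat.le_floor (by simpa using hz1)
  have hZ0 : (0 : ℝ) < Z := by exact_mod_cast hZ1
  have hZz : z / 2 ≤ Z := by
    have h1 : z < Z + 1 := Nat.lt_floor_add_one z
    have h2 : (1 : ℝ) ≤ Z := by exact_mod_cast hZ1
    linarith
  -- `4 C1 < Q ^ (w / (8 m))`
  have hbig : 4 * C1 < Q ^ (w / (8 * m)) := by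
    have h1 : Q2 ^ (w / (8 * m)) = 4 * C1 + 1 := by
      rw [hQ2, ← Real.rpow_mul (by linarith)]
      have : 8 * (m : ℝ) / w * (w / (8 * m)) = 1 := by
        field_simp
      rw [this, Real.rpow_one]
    have h2 : Q2 ^ (w / (8 * m)) ≤ Q ^ (w / (8 * m)) :=
      Real.rpow_le_rpow hQ2p.le hQQ2 (by positivity)
    linarith
  have hzw : Q ^ (w / (4 * m)) = z ^ w := by
    rw [hz, ← Real.rpow_mul hQ0.le]
    congr 1
    field_simp
  have hQw : Q ^ (w / (8 * m)) ≤ z := by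
    rw [hz]
    refine Real.rpow_le_rpow_of_exponent_le hQ1' ?_
    rw [div_le_div_iff₀ (by positivity) (by positivity)]
    nlinarith
  have hCZ : C1 / Z < 1 := by
    rw [div_lt_one hZ0]
    linarith
  have hM1 : 0 < C1 / (Z : ℝ) := by positivity
  -- the function
  set R : ℂ → ℂ := fun s => (∏ p ∈ (Finset.range (Z + 1)).filter Nat.Prime,
    qv m (q p) ((p : ℂ) ^ (-s))) * L s with hR
  have hRd : Differentiable ℂ R := by
    refine Differentiable.mul ?_ hL
    refine Differentiable.fun_finsetProd fun p hp => ?_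
    exact qv_diff m (q p) p (Finset.mem_filter.mp hp).2
  have hfar : ∀ s : ℂ, (m : ℝ) + 4 ≤ s.re → ‖R s - 1‖ ≤ C1 / Z := by
    intro s hs
    have h1 := hEPR m lam q s ((Finset.range (Z + 1)).filter Nat.Prime) hE
      (fun p hp => (Finset.mem_filter.mp hp).2) (summ m C0 lam hlam s.re hs)
    have h2 : (∑' n : ℕ, if 1 ≤ n then lam n * (n : ℂ) ^ (-s) else 0) = L s :=
      (hsum s (by linarith)).tsum_eq
    rw [h2] at h1
    have h3 := hT lam hE.one hlam Z hZ1 s hs
    rw [← h1] at h3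
    exact h3
  have hnear : ∀ s : ℂ, 1 / 2 + d / 2 ≤ s.re → s.re ≤ 2 * m + 10 → |s.im - t| ≤ 2 * m + 10 →
      ‖R s - 1‖ ≤ 2 * Q ^ (2 * η) := by
    intro s h1 h2 h3
    obtain ⟨h4, h5⟩ := hyp s h1 h2 h3
    have hS1 : Sq lam Q (Q ^ (2 * c1)) := by
      refine sq_mono lam Q _ _ ?_ hS
      exact Real.rpow_le_rpow_of_exponent_le hQ1' (by linarith)
    have hD1 : Dp m lam Q (k0 * Real.log Q) z (Q ^ c1) s := by
      refine dp_mono m lam Q _ _ _ _ s ?_ h5
      exact Real.rpow_le_rpow_of_exponent_le hQ1' hcc1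
    have h6 := hP lam q Q hQQ1 hE hlam hS1 z hzm s h1 hD1
    have h7 : ‖R s‖ ≤ Q ^ (2 * η) := by
      rw [hR]
      simp only
      rw [norm_mul]
      calc ‖∏ p ∈ (Finset.range (Z + 1)).filter Nat.Prime, qv m (q p) ((p : ℂ) ^ (-s))‖ * ‖L s‖
          ≤ Q ^ η * Q ^ c := mul_le_mul h6 h4 (norm_nonneg _) (by positivity)
        _ ≤ Q ^ η * Q ^ η := by
            refine mul_le_mul_of_nonneg_left ?_ (by positivity)
            exact Real.rpow_le_rpow_of_exponent_le hQ1' hcη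
        _ = Q ^ (2 * η) := by
            rw [← Real.rpow_add hQ0]
            congr 1
            ring
    have h8 : (1 : ℝ) ≤ Q ^ (2 * η) := Real.one_le_rpow hQ1' (by positivity)
    calc ‖R s - 1‖ ≤ ‖R s‖ + ‖(1 : ℂ)‖ := norm_sub_le _ _
      _ ≤ 2 * Q ^ (2 * η) := by
          rw [norm_one]
          linarith
  -- the main inequality
  have hlt : (C1 / Z) ^ w * (2 * Q ^ (2 * η)) ^ (1 - w) < 1 := by
    have h8 : (1 : ℝ) ≤ Q ^ (2 * η) := Real.one_le_rpow hQ1' (by positivity)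
    have e1 : (C1 / Z) ^ w ≤ 2 * C1 * (z ^ w)⁻¹ := by
      calc (C1 / (Z : ℝ)) ^ w ≤ (2 * C1 / z) ^ w := by
            refine Real.rpow_le_rpow hM1.le ?_ hw0.le
            rw [div_le_div_iff₀ hZ0 hz0]
            nlinarith
        _ = (2 * C1) ^ w * (z ^ w)⁻¹ := by
            rw [Real.div_rpow (by linarith) hz0.le, div_eq_mul_inv]
        _ ≤ 2 * C1 * (z ^ w)⁻¹ := by
            refine mul_le_mul_of_nonneg_right ?_ (by positivity)
            calc (2 * C1) ^ w ≤ (2 * C1) ^ (1 : ℝ) :=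
                  Real.rpow_le_rpow_of_exponent_le (by linarith) hw1.le
              _ = 2 * C1 := Real.rpow_one _
    have e2 : (2 * Q ^ (2 * η)) ^ (1 - w) ≤ 2 * Q ^ (2 * η) := by
      calc (2 * Q ^ (2 * η)) ^ (1 - w) ≤ (2 * Q ^ (2 * η)) ^ (1 : ℝ) :=
            Real.rpow_le_rpow_of_exponent_le (by linarith) (by linarith)
        _ = 2 * Q ^ (2 * η) := Real.rpow_one _
    have e3 : Q ^ (2 * η) = Q ^ (w / (8 * m)) := by
      congr 1
      rw [hη]
      field_simp
      ring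
    have e4 : z ^ w = Q ^ (w / (8 * m)) * Q ^ (w / (8 * m)) := by
      rw [← hzw, ← Real.rpow_add hQ0]
      congr 1
      field_simp
      ring
    have hY : 0 < Q ^ (w / (8 * m)) := Real.rpow_pos_of_pos hQ0 _
    calc (C1 / Z) ^ w * (2 * Q ^ (2 * η)) ^ (1 - w)
        ≤ (2 * C1 * (z ^ w)⁻¹) * (2 * Q ^ (2 * η)) :=
          mul_le_mul e1 e2 (by positivity) (by positivity)
      _ = 4 * C1 / Q ^ (w / (8 * m)) := by
          rw [e3, e4]
          field_simp
          ring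
      _ < 1 := by
          rw [div_lt_one hY]
          exact hbig
  have hM13 : C1 / (Z : ℝ) ≤ 2 * Q ^ (2 * η) := by
    have h8 : (1 : ℝ) ≤ Q ^ (2 * η) := Real.one_le_rpow hQ1' (by positivity)
    linarith
  -- the end
  intro s hs hst hLs
  have hR1 : R s = 0 := by
    rw [hR]
    simp only
    rw [hLs, mul_zero]
  have hone : ‖R s - 1‖ = 1 := by
    rw [hR1]
    simp
  rcases le_or_gt s.re ((m : ℝ) + 5) with hcase | hcase
  · have h1 := hH (fun s => R s - 1) (((m : ℝ) + 5 : ℝ) + t * Complex.I) (C1 / Z)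
      (2 * Q ^ (2 * η)) (hRd.sub_const 1) hM1 hM13 ?_ ?_ s ?_
    · rw [hone] at h1
      linarith
    · intro u hu
      refine hfar u ?_
      have h2 : |(u - (((m : ℝ) + 5 : ℝ) + t * Complex.I)).re| ≤ 1 :=
        (Complex.abs_re_le_norm _).trans hu
      simp at h2
      have h3 := (abs_le.mp h2).1
      linarith
    · intro u hu
      have h2 : |(u - (((m : ℝ) + 5 : ℝ) + t * Complex.I)).re| ≤ (m : ℝ) + 5 - 1 / 2 - d / 2 :=
        (Complex.abs_re_le_norm _).trans hu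
      have h3 : |(u - (((m : ℝ) + 5 : ℝ) + t * Complex.I)).im| ≤ (m : ℝ) + 5 - 1 / 2 - d / 2 :=
        (Complex.abs_im_le_norm _).trans hu
      simp at h2 h3
      have h4 := abs_le.mp h2
      refine hnear u (by linarith) (by linarith) ?_
      linarith
    · have h2 : s - (((m : ℝ) + 5 : ℝ) + t * Complex.I) = ((s.re - (m + 5) : ℝ) : ℂ) := by
        apply Complex.ext
        · simp
        · simp [hst]
      rw [h2, Complex.norm_real, Real.norm_eq_abs, abs_le]
      constructor <;> linarith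
  · have h1 := hfar s (by linarith)
    rw [hone] at h1
    linarith

end Pool.Agent.H78.ZF
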