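import Pool.Agent.H78.ZF.TL
import Pool.Agent.H78.ZF.NZR

/-!
Board zf, row NZL: a lower bound for the L-function, from the bounds for the function and the Dirichlet
polynomials.
-/

set_option autoImplicit false

namespace Pool.Agent.H78.ZF

open Pool.Agent.H27.ZF

theorem pf_NZL (hHTC : T_HTC) (hPRD : T_PRD) (hEPR : T_EPR) (hTAI : T_TAI) : T_NZL := by
  intro m d C0 e B1 hm hd hd2 hC0 he
  have hm1 : (1 : ℝ) ≤ m := by exact_mod_cast hm
  have hm0 : (0 : ℝ) < m := by linarith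
  obtain ⟨w, hw0, hw1, hH⟩ := hHTC 1 ((m : ℝ) + 5 - 1 / 2 - d) ((m : ℝ) + 5 - 1 / 2 - d / 2)
    one_pos (by linarith) (by linarith)
  obtain ⟨c1, hc1, hP⟩ := hPRD m (d / 2) C0 hm (by linarith) (by linarith) hC0
  set η0 : ℝ := w / (16 * m) with hη0d
  have hη00 : 0 < η0 := by positivity
  set η : ℝ := min η0 (e / 2) with hη
  have hη0 : 0 < η := lt_min hη00 (by linarith)
  have hηη : η ≤ η0 := min_le_left _ _
  have hηe : η ≤ e / 2 := min_le_right _ _
  obtain ⟨k0, Q1, hk0, hQ1, hP⟩ := hP η hη0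
  obtain ⟨C1, hC1, hT⟩ := hTAI m C0 hC0
  set c : ℝ := min c1 η with hc
  have hc0 : 0 < c := lt_min hc1 hη0
  have hcc1 : c ≤ c1 := min_le_left _ _
  have hcη : c ≤ η := min_le_right _ _
  set Q2 : ℝ := (8 * C1 + 1) ^ (8 * m / w) with hQ2
  have hbase : (1 : ℝ) < 8 * C1 + 1 := by linarith
  have hQ2p : 0 < Q2 := Real.rpow_pos_of_pos (by linarith) _
  set Q3 : ℝ := 2 ^ (2 / e) with hQ3
  refine ⟨c, k0, max (2 * (m : ℝ) + 10) B1, max Q1 (max Q2 Q3), hc0, hk0,
    le_max_of_le_left (by linarith), le_max_right _ _, hQ1.trans (le_max_left _ _), ?_⟩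
  intro lam q L Q t hQ hE hlam hL hsum hS hyp
  have hQQ1 : Q1 ≤ Q := (le_max_left _ _).trans hQ
  have hQQ2 : Q2 ≤ Q := ((le_max_left _ _).trans (le_max_right _ _)).trans hQ
  have hQQ3 : Q3 ≤ Q := ((le_max_right _ _).trans (le_max_right _ _)).trans hQ
  have hQ1' : 1 ≤ Q := hQ1.trans hQQ1
  have hQ0 : 0 < Q := by linarith
  -- the size of `z`
  set z : ℝ := Q ^ (1 / (4 * (m : ℝ))) with hz
  have hz1 : 1 ≤ z := Real.one_le_rpow hQ1' (by positivity)
  have hz0 : 0 < z := by linarith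
  have hzm : z ^ (4 * m) ≤ Q := by
    rw [hz, ← Real.rpow_natCast, ← Real.rpow_mul hQ0.le]
    have : 1 / (4 * (m : ℝ)) * ((4 * m : ℕ) : ℝ) = 1 := by
      push_cast
      field_simp
    rw [this, Real.rpow_one]
  set Z : ℕ := ⌊z⌋₊ with hZ
  have hZ1 : 1 ≤ Z := Nat.le_floor (by simpa using hz1)
  have hZ0 : (0 : ℝ) < Z := by exact_mod_cast hZ1
  have hZz : z / 2 ≤ Z := by
    have h1 : z < Z + 1 := Nat.lt_floor_add_one z
    have h2 : (1 : ℝ) ≤ Z := by exact_mod_cast hZ1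
    linarith
  -- `8 C1 < Q ^ (w / (8 m))`
  have hbig : 8 * C1 < Q ^ (w / (8 * m)) := by
    have h1 : Q2 ^ (w / (8 * m)) = 8 * C1 + 1 := by
      rw [hQ2, ← Real.rpow_mul (by linarith)]
      have : 8 * (m : ℝ) / w * (w / (8 * m)) = 1 := by
        field_simp
      rw [this, Real.rpow_one]
    have h2 : Q2 ^ (w / (8 * m)) ≤ Q ^ (w / (8 * m)) :=
      Real.rpow_le_rpow hQ2p.le hQQ2 (by positivity)
    linarith
  have hzw : Q ^ (w / (4 * m)) = z ^ w := by
    rw [hz, ← Real.rpow_mul hQ0.le]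
    congr 1
    field_simp
  have hQw : Q ^ (w / (8 * m)) ≤ z := by
    rw [hz]
    refine Real.rpow_le_rpow_of_exponent_le hQ1' ?_
    rw [div_le_div_iff₀ (by positivity) (by positivity)]
    nlinarith
  have hCZ : C1 / Z ≤ 1 / 2 := by
    rw [div_le_div_iff₀ hZ0 (by norm_num)]
    linarith
  have hQe : 2 ≤ Q ^ (e / 2) := by
    have h1 : Q3 ^ (e / 2) = 2 := by
      rw [hQ3, ← Real.rpow_mul (by norm_num)]
      have : 2 / e * (e / 2) = 1 := by
        field_simp
      rw [this, Real.rpow_one]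
    have h2 : Q3 ^ (e / 2) ≤ Q ^ (e / 2) :=
      Real.rpow_le_rpow (by positivity) hQQ3 (by positivity)
    linarith
  have hM1 : 0 < C1 / (Z : ℝ) := by positivity
  -- the function
  set R : ℂ → ℂ := fun s => (∏ p ∈ (Finset.range (Z + 1)).filter Nat.Prime,
    qv m (q p) ((p : ℂ) ^ (-s))) * L s with hR
  have hRd : Differentiable ℂ R := by
    refine Differentiable.mul ?_ hL
    refine Differentiable.fun_finsetProd fun p hp => ?_
    exact qv_diff m (q p) p (Finset.mem_filter.mp hp).2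
  have hfar : ∀ s : ℂ, (m : ℝ) + 4 ≤ s.re → ‖R s - 1‖ ≤ C1 / Z := by
    intro s hs
    have h1 := hEPR m lam q s ((Finset.range (Z + 1)).filter Nat.Prime) hE
      (fun p hp => (Finset.mem_filter.mp hp).2) (summ m C0 lam hlam s.re hs)
    have h2 : (∑' n : ℕ, if 1 ≤ n then lam n * (n : ℂ) ^ (-s) else 0) = L s :=
      (hsum s (by linarith)).tsum_eq
    rw [h2] at h1
    have h3 := hT lam hE.one hlam Z hZ1 s hs
    rw [← h1] at h3
    exact h3
  have hprod : ∀ s : ℂ, 1 / 2 + d / 2 ≤ s.re → s.re ≤ max (2 * (m : ℝ) + 10) B1 →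
      |s.im - t| ≤ max (2 * (m : ℝ) + 10) B1 →
      ‖∏ p ∈ (Finset.range (Z + 1)).filter Nat.Prime, qv m (q p) ((p : ℂ) ^ (-s))‖ ≤ Q ^ η := by
    intro s h1 h2 h3
    obtain ⟨h4, h5⟩ := hyp s h1 h2 h3
    have hS1 : Sq lam Q (Q ^ (2 * c1)) := by
      refine sq_mono lam Q _ _ ?_ hS
      exact Real.rpow_le_rpow_of_exponent_le hQ1' (by linarith)
    have hD1 : Dp m lam Q (k0 * Real.log Q) z (Q ^ c1) s := by
      refine dp_mono m lam Q _ _ _ _ s ?_ h5
      exact Real.rpow_le_rpow_of_exponent_le hQ1' hcc1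
    exact hP lam q Q hQQ1 hE hlam hS1 z hzm s h1 hD1
  have hnear : ∀ s : ℂ, 1 / 2 + d / 2 ≤ s.re → s.re ≤ 2 * m + 10 → |s.im - t| ≤ 2 * m + 10 →
      ‖R s - 1‖ ≤ 2 * Q ^ (2 * η) := by
    intro s h1 h2 h3
    have h2' := h2.trans (le_max_left (2 * (m : ℝ) + 10) B1)
    have h3' := h3.trans (le_max_left (2 * (m : ℝ) + 10) B1)
    obtain ⟨h4, h5⟩ := hyp s h1 h2' h3'
    have h6 := hprod s h1 h2' h3'
    have h7 : ‖R s‖ ≤ Q ^ (2 * η) := by
      rw [hR]
      simp only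
      rw [norm_mul]
      calc ‖∏ p ∈ (Finset.range (Z + 1)).filter Nat.Prime, qv m (q p) ((p : ℂ) ^ (-s))‖ * ‖L s‖
          ≤ Q ^ η * Q ^ c := mul_le_mul h6 h4 (norm_nonneg _) (by positivity)
        _ ≤ Q ^ η * Q ^ η := by
            refine mul_le_mul_of_nonneg_left ?_ (by positivity)
            exact Real.rpow_le_rpow_of_exponent_le hQ1' hcη
        _ = Q ^ (2 * η) := by
            rw [← Real.rpow_add hQ0]
            congr 1
            ring
    have h8 : (1 : ℝ) ≤ Q ^ (2 * η) := Real.one_le_rpow hQ1' (by positivity)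
    calc ‖R s - 1‖ ≤ ‖R s‖ + ‖(1 : ℂ)‖ := norm_sub_le _ _
      _ ≤ 2 * Q ^ (2 * η) := by
          rw [norm_one]
          linarith
  -- the main inequality
  have hlt : (C1 / Z) ^ w * (2 * Q ^ (2 * η)) ^ (1 - w) ≤ 1 / 2 := by
    have h8 : (1 : ℝ) ≤ Q ^ (2 * η) := Real.one_le_rpow hQ1' (by positivity)
    have e1 : (C1 / Z) ^ w ≤ 2 * C1 * (z ^ w)⁻¹ := by
      calc (C1 / (Z : ℝ)) ^ w ≤ (2 * C1 / z) ^ w := by
            refine Real.rpow_le_rpow hM1.le ?_ hw0.le
            rw [div_le_div_iff₀ hZ0 hz0]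
            nlinarith
        _ = (2 * C1) ^ w * (z ^ w)⁻¹ := by
            rw [Real.div_rpow (by linarith) hz0.le, div_eq_mul_inv]
        _ ≤ 2 * C1 * (z ^ w)⁻¹ := by
            refine mul_le_mul_of_nonneg_right ?_ (by positivity)
            calc (2 * C1) ^ w ≤ (2 * C1) ^ (1 : ℝ) :=
                  Real.rpow_le_rpow_of_exponent_le (by linarith) hw1.le
              _ = 2 * C1 := Real.rpow_one _
    have e2 : (2 * Q ^ (2 * η)) ^ (1 - w) ≤ 2 * Q ^ (2 * η) := by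
      calc (2 * Q ^ (2 * η)) ^ (1 - w) ≤ (2 * Q ^ (2 * η)) ^ (1 : ℝ) :=
            Real.rpow_le_rpow_of_exponent_le (by linarith) (by linarith)
        _ = 2 * Q ^ (2 * η) := Real.rpow_one _
    have e3 : Q ^ (2 * η) ≤ Q ^ (w / (8 * m)) := by
      refine Real.rpow_le_rpow_of_exponent_le hQ1' ?_
      have : w / (8 * m) = 2 * η0 := by
        rw [hη0d]
        field_simp
        ring
      rw [this]
      linarith
    have e4 : z ^ w = Q ^ (w / (8 * m)) * Q ^ (w / (8 * m)) := by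
      rw [← hzw, ← Real.rpow_add hQ0]
      congr 1
      field_simp
      ring
    have hY : 0 < Q ^ (w / (8 * m)) := Real.rpow_pos_of_pos hQ0 _
    calc (C1 / Z) ^ w * (2 * Q ^ (2 * η)) ^ (1 - w)
        ≤ (2 * C1 * (z ^ w)⁻¹) * (2 * Q ^ (2 * η)) :=
          mul_le_mul e1 e2 (by positivity) (by positivity)
      _ ≤ (2 * C1 * (z ^ w)⁻¹) * (2 * Q ^ (w / (8 * m))) := by
          refine mul_le_mul_of_nonneg_left ?_ (by positivity)
          linarith
      _ = 4 * C1 / Q ^ (w / (8 * m)) := by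
          rw [e4]
          field_simp
          ring
      _ ≤ 1 / 2 := by
          rw [div_le_div_iff₀ hY (by norm_num)]
          linarith
  have hM13 : C1 / (Z : ℝ) ≤ 2 * Q ^ (2 * η) := by
    have h8 : (1 : ℝ) ≤ Q ^ (2 * η) := Real.one_le_rpow hQ1' (by positivity)
    linarith
  -- the end
  intro s hs hsB hst
  have hhalf : ‖R s - 1‖ ≤ 1 / 2 := by
    rcases le_or_gt s.re ((m : ℝ) + 5) with hcase | hcase
    · have h1 := hH (fun s => R s - 1) (((m : ℝ) + 5 : ℝ) + t * Complex.I) (C1 / Z)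
        (2 * Q ^ (2 * η)) (hRd.sub_const 1) hM1 hM13 ?_ ?_ s ?_
      · exact h1.trans hlt
      · intro u hu
        refine hfar u ?_
        have h2 : |(u - (((m : ℝ) + 5 : ℝ) + t * Complex.I)).re| ≤ 1 :=
          (Complex.abs_re_le_norm _).trans hu
        simp at h2
        have h3 := (abs_le.mp h2).1
        linarith
      · intro u hu
        have h2 : |(u - (((m : ℝ) + 5 : ℝ) + t * Complex.I)).re| ≤ (m : ℝ) + 5 - 1 / 2 - d / 2 :=
          (Complex.abs_re_le_norm _).trans hu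
        have h3 : |(u - (((m : ℝ) + 5 : ℝ) + t * Complex.I)).im| ≤ (m : ℝ) + 5 - 1 / 2 - d / 2 :=
          (Complex.abs_im_le_norm _).trans hu
        simp at h2 h3
        have h4 := abs_le.mp h2
        refine hnear u (by linarith) (by linarith) ?_
        linarith
      · have h2 : s - (((m : ℝ) + 5 : ℝ) + t * Complex.I) = ((s.re - (m + 5) : ℝ) : ℂ) := by
          apply Complex.ext
          · simp
          · simp [hst]
        rw [h2, Complex.norm_real, Real.norm_eq_abs, abs_le]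
        constructor <;> linarith
    · exact (hfar s (by linarith)).trans hCZ
  have hRs : 1 / 2 ≤ ‖R s‖ := by
    have h1 : ‖(1 : ℂ)‖ ≤ ‖R s‖ + ‖R s - 1‖ := by
      calc ‖(1 : ℂ)‖ = ‖R s - (R s - 1)‖ := by
            congr 1
            ring
        _ ≤ ‖R s‖ + ‖R s - 1‖ := norm_sub_le _ _
    rw [norm_one] at h1
    linarith
  have hps := hprod s (by linarith) (hsB.trans (le_max_right _ _)) (by
    rw [hst, sub_self, abs_zero]
    exact le_max_of_le_left (by linarith))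
  have hRL : ‖R s‖ ≤ Q ^ η * ‖L s‖ := by
    rw [hR]
    simp only
    rw [norm_mul]
    exact mul_le_mul_of_nonneg_right hps (norm_nonneg _)
  have hQη : Q ^ η ≤ Q ^ (e / 2) := Real.rpow_le_rpow_of_exponent_le hQ1' hηe
  have h1 : 1 / 2 ≤ Q ^ (e / 2) * ‖L s‖ :=
    hRs.trans (hRL.trans (mul_le_mul_of_nonneg_right hQη (norm_nonneg _)))
  have h2 : Q ^ e = Q ^ (e / 2) * Q ^ (e / 2) := by
    rw [← Real.rpow_add hQ0]
    congr 1
    ring
  have hpe : 0 < Q ^ e := Real.rpow_pos_of_pos hQ0 _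
  rw [Real.rpow_neg hQ0.le, inv_le_iff_one_le_mul₀ hpe, h2]
  have h3 : 0 ≤ ‖L s‖ := norm_nonneg _
  nlinarith

end Pool.Agent.H78.ZF
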