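import Pool.Agent.H27.ZF.TA

/-!
Board zf, target NZL: lower bounds for the L-function to the right of the critical line (two-sided Lindelöf).
-/

set_option autoImplicit false

namespace Pool.Agent.H78.ZF

open Pool.Agent.H27.ZF

/-- a lower bound for the L-function -/
def T_NZL : Prop := ∀ (m : ℕ) (d C0 e B1 : ℝ), 1 ≤ m → 0 < d → d ≤ 1 / 2 → 1 ≤ C0 → 0 < e →
  ∃ c k0 B Q0 : ℝ, 0 < c ∧ 0 < k0 ∧ 1 ≤ B ∧ B1 ≤ B ∧ 1 ≤ Q0 ∧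
  ∀ (lam : ℕ → ℂ) (q : ℕ → ℕ → ℂ) (L : ℂ → ℂ) (Q t : ℝ), Q0 ≤ Q → Eul m lam q →
  (∀ n : ℕ, 1 ≤ n → ‖lam n‖ ≤ C0 * (n : ℝ) ^ m) → Differentiable ℂ L →
  (∀ s : ℂ, (m : ℝ) + 2 < s.re →
    HasSum (fun n : ℕ => if 1 ≤ n then lam n * (n : ℂ) ^ (-s) else 0) (L s)) →
  Sq lam Q (Q ^ (2 * c)) →
  (∀ s : ℂ, 1 / 2 + d / 2 ≤ s.re → s.re ≤ B → |s.im - t| ≤ B →
    ‖L s‖ ≤ Q ^ c ∧ Dp m lam Q (k0 * Real.log Q) (Q ^ (1 / (4 * (m : ℝ)))) (Q ^ c) s) →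
  ∀ s : ℂ, 1 / 2 + d ≤ s.re → s.re ≤ B1 → s.im = t → Q ^ (-e) ≤ ‖L s‖

end Pool.Agent.H78.ZF
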