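import Pool.Agent.H27.ZF.TB
import Pool.Agent.H78.ZF.TL

/-!
Board zf, target Z1L: two-sided bounds to the right of the critical line for almost all pairs of a form and a
window.
-/

set_option autoImplicit false

namespace Pool.Agent.H78.ZF

open MeasureTheory Pool.Agent.H27.L1.H34.GM Pool.Agent.H27.L1.H34.GZ Pool.Agent.H27.L1.H34.GU
  Pool.Agent.H27.L1.H34.GA Pool.Agent.H27.ZF

open Classical in
/-- one level: few pairs of a form and a window with a large or a small value to the right of the line -/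
def T_Z1L : Prop := ∀ (m : ℕ) (d e : ℝ), 1 ≤ m → 0 < d → 0 < e → ∃ c C : ℝ, 0 < c ∧ 0 < C ∧
  ∀ (N : ℕ) [NeZero N] (T : ℕ → Finset (ZM m)) (D : Set (V m)), SysZ m N T D →
  ∀ P : ℝ, 1 ≤ P → ∀ (S : Type) [Fintype S] [DecidableEq S] (F : S → Mat m → VN m N → ℂ)
    (lam : S → ℕ → ℂ) (W : S → ℝ), Fam T D P F lam W →
  ∀ L : S → ℂ → ℂ, (∀ i, IsL m 1 (lam i) (L i)) →
    ∑ i, W i * (((Finset.Icc (-⌊P⌋) ⌊P⌋).filter (fun k : ℤ => ∃ s : ℂ, 1 / 2 + d ≤ s.re ∧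
      |s.im - k| ≤ 1 ∧ (‖L i s‖ < ((N : ℝ) * P ^ m) ^ (-e) ∨
        ((N : ℝ) * P ^ m) ^ e < ‖L i s‖))).card : ℝ) ≤
      C * ((N : ℝ) * P ^ m) ^ ((m : ℝ) - c)

end Pool.Agent.H78.ZF
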